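import Pool.Agent.Q41.QL.Defs

/-!
# The spectrum of blow-ups
-/

namespace Pool.Agent.Q41.QL

namespace BG

open scoped Classical
open Matrix Polynomial

/-- the matrix which replicates the vertices -/
noncomputable def P (G : BG) (s t z : ℕ) :
    Matrix ((blow G s t z).A ⊕ (blow G s t z).B) (G.A ⊕ G.B) ℝ :=
  fun x y => match x, y with
    | Sum.inl a, Sum.inl a' => if a.1 = a' then 1 else 0
    | Sum.inr (Sum.inl b), Sum.inr b' => if b.1 = b' then 1 else 0
    | _, _ => 0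

theorem adj_blow (G : BG) (s t z : ℕ) :
    adj (blow G s t z) = P G s t z * (adj G * (P G s t z)ᵀ) := by
  ext x y
  rw [Matrix.mul_apply]
  simp only [Matrix.mul_apply, Matrix.transpose_apply, Fintype.sum_sum_type]
  rcases x with a | (b | i) <;> rcases y with a' | (b' | i') <;>
    simp [adj, M, P, Matrix.fromBlocks]
  · rw [Finset.sum_eq_single a.1]
    · simp
    · intro c _ hc; simp [Ne.symm hc]
    · simp
  · rw [Finset.sum_eq_single b.1]
    · simp
    · intro c _ hc; simp [Ne.symm hc]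
    · simp

theorem PtP (G : BG) (s t z : ℕ) :
    (P G s t z)ᵀ * P G s t z = Matrix.fromBlocks ((s : ℝ) • (1 : Matrix G.A G.A ℝ)) 0 0
      ((t : ℝ) • (1 : Matrix G.B G.B ℝ)) := by
  ext x y
  rw [Matrix.mul_apply]
  simp only [Matrix.transpose_apply, Fintype.sum_sum_type]
  rcases x with a | b <;> rcases y with a' | b' <;>
    simp [P, Matrix.fromBlocks, Matrix.one_apply, Fintype.sum_prod_type]
  · by_cases h : a = a'
    · simp [h]
    · simp [h, Ne.symm h]
  · by_cases h : b = b'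
    · simp [h]
    · simp [h, Ne.symm h]

theorem charpoly_blow (G : BG) (s t z : ℕ) :
    (X : ℝ[X]) ^ Fintype.card (G.A ⊕ G.B) * (adj (blow G s t z)).charpoly =
      X ^ (Fintype.card ((blow G s t z).A ⊕ (blow G s t z).B)) *
        (adj G * Matrix.fromBlocks ((s : ℝ) • (1 : Matrix G.A G.A ℝ)) 0 0
          ((t : ℝ) • (1 : Matrix G.B G.B ℝ))).charpoly := by
  rw [adj_blow, Matrix.charpoly_mul_comm', Matrix.mul_assoc, PtP]

theorem adj_mul_one_sq (G : BG) (s : ℕ) :
    (adj G * Matrix.fromBlocks (((1 : ℕ) : ℝ) • (1 : Matrix G.A G.A ℝ)) 0 0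
          (((s ^ 2 : ℕ) : ℝ) • (1 : Matrix G.B G.B ℝ))).charpoly =
    (adj G * Matrix.fromBlocks ((s : ℝ) • (1 : Matrix G.A G.A ℝ)) 0 0
          ((s : ℝ) • (1 : Matrix G.B G.B ℝ))).charpoly := by
  set D : Matrix (G.A ⊕ G.B) (G.A ⊕ G.B) ℝ :=
    Matrix.fromBlocks (1 : Matrix G.A G.A ℝ) 0 0 ((s : ℝ) • (1 : Matrix G.B G.B ℝ)) with hD
  have h1 : Matrix.fromBlocks (((1 : ℕ) : ℝ) • (1 : Matrix G.A G.A ℝ)) 0 0
          (((s ^ 2 : ℕ) : ℝ) • (1 : Matrix G.B G.B ℝ)) = D * D := by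
    rw [hD, Matrix.fromBlocks_multiply]
    congr 1
    · simp
    · simp
    · simp
    · ext i j
      simp [Matrix.one_apply, pow_two]
      
  rw [h1, ← Matrix.mul_assoc, Matrix.charpoly_mul_comm]
  congr 1
  rw [hD, adj, Matrix.fromBlocks_multiply, Matrix.fromBlocks_multiply, Matrix.fromBlocks_multiply]
  congr 1 <;> simp

theorem charpoly_inst {ι : Type} [Fintype ι] (d1 d2 : DecidableEq ι) (M : Matrix ι ι ℝ) :
    @Matrix.charpoly ℝ _ ι d1 _ M = @Matrix.charpoly ℝ _ ι d2 _ M := by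
  rw [Subsingleton.elim d1 d2]

/-- The two blow-ups have the same spectrum. -/
theorem spec_blow (G : BG) (s : ℕ) (hs : 1 ≤ s)
    (hG : Fintype.card G.A = Fintype.card G.B) :
    spec (blow G 1 (s ^ 2) 0) = spec (blow G s s ((s - 1) ^ 2 * Fintype.card G.A)) := by
  have h1 := charpoly_blow G 1 (s ^ 2) 0
  have h2 := charpoly_blow G s s ((s - 1) ^ 2 * Fintype.card G.A)
  have hc : Fintype.card ((blow G 1 (s ^ 2) 0).A ⊕ (blow G 1 (s ^ 2) 0).B) =
      Fintype.card ((blow G s s ((s - 1) ^ 2 * Fintype.card G.A)).A ⊕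
        (blow G s s ((s - 1) ^ 2 * Fintype.card G.A)).B) := by
    simp only [Fintype.card_sum, Fintype.card_prod, Fintype.card_fin, ← hG]
    obtain ⟨k, rfl⟩ : ∃ k, s = k + 1 := ⟨s - 1, by omega⟩
    simp only [Nat.add_sub_cancel]
    ring
  rw [adj_mul_one_sq, hc, ← h2] at h1
  have h3 := mul_left_cancel₀ (pow_ne_zero _ Polynomial.X_ne_zero) h1
  unfold spec
  refine Eq.trans ?_ ((congrArg Polynomial.roots h3).trans ?_)
  · exact congrArg Polynomial.roots (charpoly_inst _ _ _)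
  · exact congrArg Polynomial.roots (charpoly_inst _ _ _)

end BG

end Pool.Agent.Q41.QL
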