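import Pool.Agent.Q41.QL.Lower

/-!
# Chebyshev's inequality: the density is rarely small
-/

namespace Pool.Agent.Q41.QL

namespace BG

open scoped Classical

theorem card_Emb_ge (H : BG) (N : ℕ) (hN : 2 * v H ≤ N) :
    ((N : ℝ) / 2) ^ v H ≤ (Fintype.card (Emb H N) : ℝ) := by
  rw [Fintype.card_prod, Fintype.card_embedding_eq, Fintype.card_embedding_eq, Fintype.card_fin]
  unfold v at hN ⊢
  rw [pow_add]
  push_cast
  have key : ∀ a : ℕ, 2 * a ≤ N → ((N : ℝ) / 2) ^ a ≤ (N.descFactorial a : ℝ) := by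
    intro a ha
    have h1 := Nat.pow_sub_le_descFactorial N a
    have h2 : ((N : ℝ) / 2) ≤ ((N + 1 - a : ℕ) : ℝ) := by
      rw [Nat.cast_sub (by omega)]
      push_cast
      have : (2 : ℝ) * a ≤ N := by exact_mod_cast ha
      linarith
    calc ((N : ℝ) / 2) ^ a ≤ ((N + 1 - a : ℕ) : ℝ) ^ a := by gcongr
      _ ≤ (N.descFactorial a : ℝ) := by exact_mod_cast h1
  exact mul_le_mul (key _ (by omega)) (key _ (by omega)) (by positivity) (by positivity)

/-- The density is rarely much smaller than `q ^ (- r)`. -/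
theorem lower (H : BG) (δ : ℝ) (hδ : 0 < δ) : ∃ c : ℝ, 0 < c ∧ ∀ᶠ k : ℕ in Filter.atTop,
    (((Finset.univ : Finset (Om k)).filter fun f =>
      tB H (Gf f) < c / ((k + 1 : ℕ) : ℝ) ^ r H).card : ℝ) ≤ δ * W k := by
  obtain ⟨H', φ, ψ, hc, hr⟩ := r_attained H
  set C : ℝ := ((Fintype.card H'.A + 1 : ℝ) ^ Fintype.card H'.A *
          (Fintype.card H'.B + 1 : ℝ) ^ Fintype.card H'.B) with hC
  have hC0 : 0 < C := by positivity
  refine ⟨1 / (2 * 2 ^ v H'), by positivity, ?_⟩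
  have hlim : Filter.Tendsto (fun k : ℕ => (4 * C * 2 ^ v H') / ((k : ℝ) + 1)) Filter.atTop
      (nhds 0) := by
    have h := (tendsto_const_div_atTop_nhds_zero_nat (4 * C * 2 ^ v H')).comp
      (Filter.tendsto_add_atTop_nat 1)
    refine h.congr fun k => ?_
    simp
  filter_upwards [Filter.eventually_ge_atTop (2 * v H'),
    hlim.eventually (gt_mem_nhds hδ)] with k hk1 hk2
  have hW := W_pos k
  have hY2 := sum_Y2_le hc hr k
  have hY1 := sum_Y H' k
  have hI := card_Emb_ge H' ((k + 1) ^ 2) (by nlinarith)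
  set q : ℝ := ((k + 1 : ℕ) : ℝ) with hq
  have hq' : (k : ℝ) + 1 = q := by rw [hq]; push_cast; ring
  rw [hq'] at hk2
  have hq1 : (1 : ℝ) ≤ q := by rw [hq]; exact_mod_cast Nat.succ_le_succ (Nat.zero_le k)
  have hq0 : (0 : ℝ) < q := by linarith
  have hN : (((k + 1) ^ 2 : ℕ) : ℝ) = q ^ 2 := by rw [hq]; push_cast; ring
  set I : ℝ := (Fintype.card (Emb H' ((k + 1) ^ 2)) : ℝ) with hIdef
  rw [hN, div_pow, ← pow_mul] at hI
  have hIpos : 0 < I := lt_of_lt_of_le (by positivity) hI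
  set m := e H' with hm
  set μ : ℝ := I / q ^ m with hμ
  have hμ0 : 0 < μ := by positivity
  set F := (Finset.univ : Finset (Om k)).filter fun f =>
      tB H (Gf f) < 1 / (2 * 2 ^ v H') / q ^ r H with hF
  -- elements of `F` have small `Y`
  have h1 : ∀ f ∈ F, μ ^ 2 / 4 ≤ (Y H' f - μ) ^ 2 := by
    intro f hf
    rw [hF, Finset.mem_filter, tB_Gf, div_lt_iff₀ (by positivity)] at hf
    have h2 : Y H' f ≤ hom H (Gf f) :=
      (Y_le_hom H' f).trans (by exact_mod_cast hom_collapse hc _)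
    have h3 : 1 / (2 * 2 ^ v H') / q ^ r H * q ^ (2 * v H) ≤ μ / 2 := by
      have h4 : q ^ r H * q ^ (2 * v H') = q ^ m * q ^ (2 * v H) := by
        rw [← pow_add, ← pow_add]
        congr 1
        have := isCollapse_card hc
        omega
      have h5 : 1 / (2 * 2 ^ v H') / q ^ r H * q ^ (2 * v H) =
          q ^ (2 * v H') / 2 ^ v H' / q ^ m / 2 := by
        field_simp
        linarith
      rw [h5, hμ]
      gcongr
    have h6 : Y H' f ≤ μ / 2 := h2.trans (hf.2.le.trans h3)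
    nlinarith
  have h2 : (F.card : ℝ) * (μ ^ 2 / 4) ≤ ∑ f : Om k, (Y H' f - μ) ^ 2 := by
    rw [← nsmul_eq_mul]
    exact (Finset.card_nsmul_le_sum _ _ _ h1).trans
      (Finset.sum_le_sum_of_subset_of_nonneg (Finset.subset_univ _) fun _ _ _ => sq_nonneg _)
  have h3 : ∑ f : Om k, (Y H' f - μ) ^ 2 = ∑ f : Om k, Y H' f ^ 2 - W k * μ ^ 2 := by
    have : ∀ f : Om k, (Y H' f - μ) ^ 2 = Y H' f ^ 2 - 2 * μ * Y H' f + μ ^ 2 := by
      intro f; ring
    rw [Finset.sum_congr rfl fun f _ => this f, Finset.sum_add_distrib, Finset.sum_sub_distrib,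
      ← Finset.mul_sum, hY1, Finset.sum_const, nsmul_eq_mul, card_Om]
    ring
  rw [h3] at h2
  have h4 : (F.card : ℝ) * (μ ^ 2 / 4) ≤ W k * (I * (C * q ^ (2 * v H')) / q ^ (2 * m + 3)) := by
    refine h2.trans ?_
    have h5 : W k * (I ^ 2 / q ^ (2 * m) + I * (C * q ^ (2 * v H')) / q ^ (2 * m + 3)) =
        W k * μ ^ 2 + W k * (I * (C * q ^ (2 * v H')) / q ^ (2 * m + 3)) := by
      rw [hμ, div_pow, ← pow_mul, mul_comm m 2]
      ring
    rw [h5] at hY2
    linarith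
  have h6 : (F.card : ℝ) ≤ W k * (4 * C * 2 ^ v H' / q ^ 3) := by
    have hX : 0 < q ^ (2 * v H') := by positivity
    have h7 : q ^ (2 * v H') ≤ I * 2 ^ v H' := by
      rwa [div_le_iff₀ (by positivity)] at hI
    have h8 : (F.card : ℝ) * (μ ^ 2 / 4) * (4 * q ^ (2 * m)) = (F.card : ℝ) * I * I := by
      rw [hμ, div_pow, ← pow_mul, mul_comm m 2]
      field_simp
    have h9 : W k * (I * (C * q ^ (2 * v H')) / q ^ (2 * m + 3)) * (4 * q ^ (2 * m)) =
        W k * (4 * C * q ^ (2 * v H') / q ^ 3) * I := by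
      rw [pow_add]
      field_simp
    have h10 := mul_le_mul_of_nonneg_right h4 (by positivity : (0 : ℝ) ≤ 4 * q ^ (2 * m))
    rw [h8, h9] at h10
    have h11 := le_of_mul_le_mul_right h10 hIpos
    have h12 : W k * (4 * C * q ^ (2 * v H') / q ^ 3) ≤ W k * (4 * C * (I * 2 ^ v H') / q ^ 3) := by
      gcongr
    have h13 : W k * (4 * C * (I * 2 ^ v H') / q ^ 3) = W k * (4 * C * 2 ^ v H' / q ^ 3) * I := by
      ring
    rw [h13] at h12
    exact le_of_mul_le_mul_right (h11.trans h12) hIpos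
  refine h6.trans ?_
  rw [mul_comm δ]
  refine mul_le_mul_of_nonneg_left ?_ hW.le
  refine le_trans ?_ hk2.le
  have h14 : q ≤ q ^ 3 := by
    nlinarith [mul_nonneg (sub_nonneg.mpr hq1) hq0.le, mul_nonneg (mul_nonneg (sub_nonneg.mpr hq1) hq0.le) hq0.le]
  gcongr

end BG

end Pool.Agent.Q41.QL
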