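import Mathlib

/-!
# Finite bipartite graphs with labelled classes, homomorphism densities and log-limits
-/

namespace Pool.Agent.Q41.QL

open scoped Classical

/-- A finite bipartite graph with labelled vertex classes `A` (that is `V₁`) and `B` (that is
`V₂`); `E a b` says that `a ∈ V₁` and `b ∈ V₂` are adjacent. -/
structure BG where
  /-- the first class -/
  A : Type
  /-- the second class -/
  B : Type
  fA : Fintype A
  fB : Fintype B
  /-- the edges -/
  E : A → B → Prop

attribute [instance] BG.fA BG.fB

namespace BG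

/-- number of vertices -/
def v (G : BG) : ℕ := Fintype.card G.A + Fintype.card G.B

/-- number of edges -/
noncomputable def e (G : BG) : ℕ := Nat.card {p : G.A × G.B // G.E p.1 p.2}

/-- number of homomorphisms (which respect the classes) from `H` to `G` -/
noncomputable def hom (H G : BG) : ℕ :=
  Nat.card {f : (H.A → G.A) × (H.B → G.B) // ∀ a b, H.E a b → G.E (f.1 a) (f.2 b)}

/-- homomorphism density -/
noncomputable def tB (H G : BG) : ℝ :=
  (hom H G : ℝ) / ((Fintype.card G.A : ℝ) ^ Fintype.card H.A *
    (Fintype.card G.B : ℝ) ^ Fintype.card H.B)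

/-- the single edge -/
def K2 : BG := ⟨Unit, Unit, inferInstance, inferInstance, fun _ _ => True⟩

/-- the logarithmic density; `e H` if `G` is complete bipartite -/
noncomputable def h (H G : BG) : ℝ :=
  if tB K2 G = 1 then (e H : ℝ) else Real.log (tB H G) / Real.log (tB K2 G)

/-- `H'` is a collapse of `H` by the maps `φ`, `ψ` of the classes: a homomorphism which is
surjective on vertices and on edges. -/
def IsCollapse (H H' : BG) (φ : H.A → H'.A) (ψ : H.B → H'.B) : Prop :=
  Function.Surjective φ ∧ Function.Surjective ψ ∧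
    (∀ a b, H.E a b → H'.E (φ a) (ψ b)) ∧
    ∀ a' b', H'.E a' b' → ∃ a b, φ a = a' ∧ ψ b = b' ∧ H.E a b

/-- the minimum of `|E(H')| + 2 (|V(H)| - |V(H')|)` over the collapses `H'` of `H` -/
noncomputable def r (H : BG) : ℕ :=
  sInf {n : ℕ | ∃ (H' : BG) (φ : H.A → H'.A) (ψ : H.B → H'.B), IsCollapse H H' φ ψ ∧
    n = e H' + 2 * (v H - v H')}

/-- at least one edge -/
def HasEdge (G : BG) : Prop := ∃ a b, G.E a b

/-- biadjacency matrix -/
noncomputable def M (G : BG) : Matrix G.A G.B ℝ := fun a b => if G.E a b then 1 else 0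

/-- adjacency matrix of the underlying simple graph on `V₁ ∪ V₂` -/
noncomputable def adj (G : BG) : Matrix (G.A ⊕ G.B) (G.A ⊕ G.B) ℝ :=
  Matrix.fromBlocks 0 (M G) (M G).transpose 0

/-- the spectrum: the multiset of the eigenvalues of the adjacency matrix -/
noncomputable def spec (G : BG) : Multiset ℝ := (adj G).charpoly.roots

/-- the sequence has the quasirandom log-limit -/
def LogLimit (G : ℕ → BG) : Prop :=
  ∀ H : BG, HasEdge H → Filter.Tendsto (fun n => h H (G n)) Filter.atTop (nhds (r H : ℝ))

/-! ### blow-ups -/

/-- the blow-up of the vertices of the first class `s` times, of the vertices of the second class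
`t` times, together with `z` isolated vertices in the second class -/
abbrev blow (G : BG) (s t z : ℕ) : BG where
  A := G.A × Fin s
  B := (G.B × Fin t) ⊕ Fin z
  fA := inferInstance
  fB := inferInstance
  E := fun a b => match b with
    | Sum.inl b => G.E a.1 b.1
    | Sum.inr _ => False

theorem card_blow_A (G : BG) (s t z : ℕ) :
    Fintype.card (blow G s t z).A = Fintype.card G.A * s := by
  change Fintype.card (G.A × Fin s) = _
  rw [Fintype.card_prod, Fintype.card_fin]

theorem card_blow_B (G : BG) (s t z : ℕ) :
    Fintype.card (blow G s t z).B = Fintype.card G.B * t + z := by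
  change Fintype.card ((G.B × Fin t) ⊕ Fin z) = _
  rw [Fintype.card_sum, Fintype.card_prod, Fintype.card_fin, Fintype.card_fin]

theorem hom_blow (H G : BG) (s t z : ℕ) (hz : ∀ (_ : Fin z) (b : H.B), ∃ a, H.E a b) :
    hom H (blow G s t z) = hom H G * s ^ Fintype.card H.A * t ^ Fintype.card H.B := by
  let F : ({f : (H.A → G.A) × (H.B → G.B) // ∀ a b, H.E a b → G.E (f.1 a) (f.2 b)} ×
        (H.A → Fin s)) × (H.B → Fin t) →
      {f : (H.A → (blow G s t z).A) × (H.B → (blow G s t z).B) //
      ∀ a b, H.E a b → (blow G s t z).E (f.1 a) (f.2 b)} :=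
    fun f => ⟨(fun a => (f.1.1.1.1 a, f.1.2 a), fun b => Sum.inl (f.1.1.1.2 b, f.2 b)),
        fun a b hab => f.1.1.2 a b hab⟩
  have hF : Function.Bijective F := by
    constructor
    · rintro ⟨⟨⟨⟨f, g⟩, hf⟩, f2⟩, g2⟩ ⟨⟨⟨⟨f', g'⟩, hf'⟩, f2'⟩, g2'⟩ heq
      have h1 := congrArg (fun x => x.1.1) heq
      have h2 := congrArg (fun x => x.1.2) heq
      have h3 : ∀ a, f a = f' a ∧ f2 a = f2' a := by
        intro a
        have := congrFun h1 a
        exact Prod.ext_iff.mp this
      have h4 : ∀ b, g b = g' b ∧ g2 b = g2' b := by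
        intro b
        have := congrFun h2 b
        exact Prod.ext_iff.mp (Sum.inl_injective this)
      obtain rfl : f = f' := funext fun a => (h3 a).1
      obtain rfl : f2 = f2' := funext fun a => (h3 a).2
      obtain rfl : g = g' := funext fun a => (h4 a).1
      obtain rfl : g2 = g2' := funext fun a => (h4 a).2
      rfl
    · rintro ⟨⟨f, g⟩, hf⟩
      have h1 : ∀ b, ∃ p : G.B × Fin t, g b = Sum.inl p := by
        intro b
        rcases hb : g b with p | i
        · exact ⟨p, rfl⟩
        · obtain ⟨a, ha⟩ := hz i b
          have h2 := hf a b ha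
          simp only [hb] at h2
      choose p hp using h1
      refine ⟨((⟨(fun a => (f a).1, fun b => (p b).1), ?_⟩, fun a => (f a).2),
        fun b => (p b).2), ?_⟩
      · intro a b hab
        have h2 := hf a b hab
        simp only [hp] at h2
        exact h2
      · apply Subtype.ext
        apply Prod.ext
        · funext a; rfl
        · funext b; exact (hp b).symm
  unfold hom
  rw [← Nat.card_congr (Equiv.ofBijective F hF), Nat.card_prod, Nat.card_prod,
    Nat.card_eq_fintype_card (α := H.A → Fin s),
    Nat.card_eq_fintype_card (α := H.B → Fin t), Fintype.card_fun, Fintype.card_fun,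
    Fintype.card_fin, Fintype.card_fin]

end BG

end Pool.Agent.Q41.QL
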