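import Pool.Agent.Q41.QL.Cheb

/-!
# Existence of graphs which are good for finitely many test graphs
-/

namespace Pool.Agent.Q41.QL

namespace BG

open scoped Classical

/-- the colouring `f` is good for `H` -/
def IsGood (H : BG) (k : ℕ) (η : ℝ) (f : Om k) : Prop :=
  0 < tB H (Gf f) ∧ |-(Real.log (tB H (Gf f))) / Real.log ((k + 1 : ℕ) : ℝ) - r H| ≤ η

theorem good (H : BG) (η δ : ℝ) (hη : 0 < η) (hδ : 0 < δ) : ∀ᶠ k : ℕ in Filter.atTop,
    (((Finset.univ : Finset (Om k)).filter fun f => ¬ IsGood H k η f).card : ℝ) ≤ δ * W k := by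
  obtain ⟨K, hK, hup⟩ := upper H (δ / 2) (by positivity)
  obtain ⟨c, hc, hlow⟩ := lower H (δ / 2) (by positivity)
  have hlog : Filter.Tendsto (fun k : ℕ => Real.log ((k + 1 : ℕ) : ℝ)) Filter.atTop
      Filter.atTop :=
    (Real.tendsto_log_atTop.comp tendsto_natCast_atTop_atTop).comp
      (Filter.tendsto_add_atTop_nat 1)
  filter_upwards [hlow, hlog.eventually_ge_atTop (|Real.log K| / η),
    hlog.eventually_ge_atTop (|Real.log c| / η), hlog.eventually_gt_atTop 0] with k h1 h2 h3 h4
  have h5 := hup k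
  set q : ℝ := ((k + 1 : ℕ) : ℝ) with hq
  have hq0 : (0 : ℝ) < q := by rw [hq]; positivity
  have hsub : ((Finset.univ : Finset (Om k)).filter fun f => ¬ IsGood H k η f) ⊆
      ((Finset.univ : Finset (Om k)).filter fun f => K / q ^ r H < tB H (Gf f)) ∪
      ((Finset.univ : Finset (Om k)).filter fun f => tB H (Gf f) < c / q ^ r H) := by
    intro f hf
    rw [Finset.mem_filter] at hf
    rw [Finset.mem_union, Finset.mem_filter, Finset.mem_filter]
    by_contra hcon
    push Not at hcon
    have h6 := hcon.1 (Finset.mem_univ _)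
    have h7 := hcon.2 (Finset.mem_univ _)
    apply hf.2
    have h8 : 0 < tB H (Gf f) := lt_of_lt_of_le (by positivity) h7
    refine ⟨h8, ?_⟩
    have h9 := Real.log_le_log (by positivity) h7
    have h10 := Real.log_le_log h8 h6
    rw [Real.log_div (by positivity) (by positivity), Real.log_pow] at h9 h10
    rw [div_le_iff₀ hη] at h2 h3
    rw [div_sub' h4.ne', abs_div, abs_of_pos h4, div_le_iff₀ h4, abs_le]
    have h11 := le_abs_self (Real.log K)
    have h12 := neg_abs_le (Real.log c)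
    constructor
    · nlinarith
    · nlinarith
  have h6 := Finset.card_le_card hsub
  have h7 := h6.trans (Finset.card_union_le _ _)
  have h8 : (((Finset.univ : Finset (Om k)).filter fun f => ¬ IsGood H k η f).card : ℝ) ≤
      (((Finset.univ : Finset (Om k)).filter fun f => K / q ^ r H < tB H (Gf f)).card : ℝ) +
      (((Finset.univ : Finset (Om k)).filter fun f => tB H (Gf f) < c / q ^ r H).card : ℝ) := by
    exact_mod_cast h7
  refine h8.trans ?_
  linarith

theorem exists_good {ι : Type} [Fintype ι] (Hs : ι → BG) (η : ℝ) (hη : 0 < η) :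
    ∃ k : ℕ, 1 ≤ k ∧ ∃ f : Om k, ∀ i, IsGood (Hs i) k η f := by
  set δ : ℝ := 1 / (Fintype.card ι + 1 : ℝ) with hδ
  have hδ0 : 0 < δ := by positivity
  have h1 : ∀ᶠ k : ℕ in Filter.atTop, ∀ i ∈ (Finset.univ : Finset ι),
      (((Finset.univ : Finset (Om k)).filter fun f => ¬ IsGood (Hs i) k η f).card : ℝ) ≤
        δ * W k :=
    (Filter.eventually_all_finset _).mpr fun i _ => good (Hs i) η δ hη hδ0
  obtain ⟨k, hk, hk1⟩ := (h1.and (Filter.eventually_ge_atTop 1)).exists
  refine ⟨k, hk1, ?_⟩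
  by_contra hcon
  push Not at hcon
  have h2 : (Finset.univ : Finset (Om k)) ⊆ (Finset.univ : Finset ι).biUnion fun i =>
      (Finset.univ : Finset (Om k)).filter fun f => ¬ IsGood (Hs i) k η f := by
    intro f _
    obtain ⟨i, hi⟩ := hcon f
    exact Finset.mem_biUnion.mpr ⟨i, Finset.mem_univ _, Finset.mem_filter.mpr
      ⟨Finset.mem_univ _, hi⟩⟩
  have h3 := (Finset.card_le_card h2).trans Finset.card_biUnion_le
  have h4 : (((Finset.univ : Finset (Om k)).card : ℕ) : ℝ) ≤ ∑ i : ι,
      (((Finset.univ : Finset (Om k)).filter fun f => ¬ IsGood (Hs i) k η f).card : ℝ) := by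
    exact_mod_cast h3
  rw [card_Om] at h4
  have h5 : ∑ i : ι,
      (((Finset.univ : Finset (Om k)).filter fun f => ¬ IsGood (Hs i) k η f).card : ℝ) ≤
      Fintype.card ι * (δ * W k) := by
    refine (Finset.sum_le_sum fun i hi => hk i hi).trans ?_
    rw [Finset.sum_const, nsmul_eq_mul, Finset.card_univ]
  have h6 := h4.trans h5
  have hW := W_pos k
  rw [hδ] at h6
  have h7 : (Fintype.card ι : ℝ) * (1 / (Fintype.card ι + 1 : ℝ) * W k) =
      (Fintype.card ι : ℝ) * W k / (Fintype.card ι + 1) := by ring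
  rw [h7, le_div_iff₀ (by positivity)] at h6
  nlinarith

/-! ### isomorphic graphs -/

/-- an isomorphism -/
structure Iso (H H' : BG) where
  α : H.A ≃ H'.A
  β : H.B ≃ H'.B
  map : ∀ a b, H.E a b ↔ H'.E (α a) (β b)

theorem Iso.e_eq {H H' : BG} (i : Iso H H') : e H = e H' := by
  unfold e
  refine Nat.card_congr ((i.α.prodCongr i.β).subtypeEquiv ?_)
  rintro ⟨a, b⟩
  exact i.map a b

theorem Iso.v_eq {H H' : BG} (i : Iso H H') : v H = v H' := by
  unfold v
  rw [Fintype.card_congr i.α, Fintype.card_congr i.β]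

theorem Iso.hom_eq {H H' : BG} (i : Iso H H') (G : BG) : hom H G = hom H' G := by
  unfold hom
  refine Nat.card_congr (((i.α.arrowCongr (Equiv.refl G.A)).prodCongr
    (i.β.arrowCongr (Equiv.refl G.B))).subtypeEquiv ?_)
  rintro ⟨f, g⟩
  constructor
  · intro h a b hab
    have := (i.map (i.α.symm a) (i.β.symm b))
    simp only [Equiv.apply_symm_apply] at this
    simpa using h _ _ (this.mpr hab)
  · intro h a b hab
    simpa using h _ _ ((i.map a b).mp hab)

theorem Iso.tB_eq {H H' : BG} (i : Iso H H') (G : BG) : tB H G = tB H' G := by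
  unfold tB
  rw [i.hom_eq, Fintype.card_congr i.α, Fintype.card_congr i.β]

theorem Iso.r_le {H H' : BG} (i : Iso H H') : r H ≤ r H' := by
  obtain ⟨H'', φ, ψ, hc, hr⟩ := r_attained H'
  rw [hr, ← i.v_eq]
  refine BG.r_le (φ := φ ∘ i.α) (ψ := ψ ∘ i.β) ⟨hc.1.comp i.α.surjective,
    hc.2.1.comp i.β.surjective, ?_, ?_⟩
  · intro a b hab
    exact hc.2.2.1 _ _ ((i.map a b).mp hab)
  · intro a' b' h
    obtain ⟨a, b, rfl, rfl, hab⟩ := hc.2.2.2 a' b' h
    refine ⟨i.α.symm a, i.β.symm b, ?_, ?_, ?_⟩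
    · simp
    · simp
    · rw [i.map]
      simpa using hab

/-- the inverse -/
def Iso.symm {H H' : BG} (i : Iso H H') : Iso H' H where
  α := i.α.symm
  β := i.β.symm
  map := fun a b => by
    rw [i.map]
    simp

theorem Iso.r_eq {H H' : BG} (i : Iso H H') : r H = r H' := le_antisymm i.r_le i.symm.r_le

/-- codes of graphs -/
abbrev Code : Type := Σ a : ℕ, Σ b : ℕ, (Fin a → Fin b → Bool)

/-- the graph with a given code -/
def ofCode (c : Code) : BG :=
  ⟨Fin c.1, Fin c.2.1, inferInstance, inferInstance, fun a b => c.2.2 a b = true⟩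

theorem exists_code (H : BG) : ∃ c : Code, Nonempty (Iso H (ofCode c)) := by
  refine ⟨⟨Fintype.card H.A, Fintype.card H.B, fun a b =>
    decide (H.E ((Fintype.equivFin H.A).symm a) ((Fintype.equivFin H.B).symm b))⟩, ⟨?_⟩⟩
  refine ⟨Fintype.equivFin H.A, Fintype.equivFin H.B, fun a b => ?_⟩
  change _ ↔ decide (H.E ((Fintype.equivFin H.A).symm ((Fintype.equivFin H.A) a))
    ((Fintype.equivFin H.B).symm ((Fintype.equivFin H.B) b))) = true
  rw [Equiv.symm_apply_apply, Equiv.symm_apply_apply, decide_eq_true_iff]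

end BG

end Pool.Agent.Q41.QL
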