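import Pool.Agent.Q41.QL.Moment

/-!
# Second moment
-/

namespace Pool.Agent.Q41.QL

namespace BG

open scoped Classical

theorem hom_collapse {H H' : BG} {φ : H.A → H'.A} {ψ : H.B → H'.B} (hc : IsCollapse H H' φ ψ)
    (G : BG) : hom H' G ≤ hom H G := by
  unfold hom
  refine Nat.card_le_card_of_injective
    (fun f : {f : (H'.A → G.A) × (H'.B → G.B) // ∀ a b, H'.E a b → G.E (f.1 a) (f.2 b)} =>
      (⟨(f.1.1 ∘ φ, f.1.2 ∘ ψ), fun a b hab => f.2 _ _ (hc.2.2.1 a b hab)⟩ :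
      {f : (H.A → G.A) × (H.B → G.B) // ∀ a b, H.E a b → G.E (f.1 a) (f.2 b)})) ?_
  rintro ⟨⟨f, g⟩, hf⟩ ⟨⟨f', g'⟩, hf'⟩ h
  simp only [Subtype.mk.injEq, Prod.mk.injEq] at h
  obtain rfl := hc.1.injective_comp_right h.1
  obtain rfl := hc.2.1.injective_comp_right h.2
  rfl

/-- pairs of embeddings of the two classes -/
abbrev Emb (H : BG) (N : ℕ) : Type := (H.A ↪ Fin N) × (H.B ↪ Fin N)

/-- the number of copies of `H` -/
noncomputable def Y (H : BG) {N k : ℕ} (f : Fin N × Fin N → Fin (k + 1)) : ℝ :=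
  ∑ p : Emb H N, if ∀ x ∈ im H p.1 p.2, f x = 0 then (1 : ℝ) else 0

theorem Y_le_hom (H : BG) {N k : ℕ} (f : Fin N × Fin N → Fin (k + 1)) :
    Y H f ≤ hom H (Gf f) := by
  rw [hom_eq]
  unfold Y
  let j : Emb H N → (H.A → Fin N) × (H.B → Fin N) := fun p => (p.1, p.2)
  have hj : Function.Injective j := by
    rintro ⟨p, q⟩ ⟨p', q'⟩ h
    simp only [j, Prod.mk.injEq] at h
    exact Prod.ext (DFunLike.coe_injective h.1) (DFunLike.coe_injective h.2)
  calc (∑ p : Emb H N, if ∀ x ∈ im H p.1 p.2, f x = 0 then (1 : ℝ) else 0)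
      = ∑ p ∈ Finset.univ.image j, if ∀ x ∈ im H p.1 p.2, f x = 0 then (1 : ℝ) else 0 := by
        rw [Finset.sum_image hj.injOn]
    _ ≤ _ := Finset.sum_le_sum_of_subset_of_nonneg (Finset.subset_univ _)
          fun _ _ _ => by split_ifs <;> norm_num

theorem im_card_aux (H : BG) {X Y : Type} (φ : H.A → X) (ψ : H.B → Y)
    (h1 : Function.Injective φ) (h2 : Function.Injective ψ) : (im H φ ψ).card = e H := by
  unfold im
  rw [e_eq, Finset.card_image_of_injective _ (h1.prodMap h2)]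

theorem im_card (H : BG) {N : ℕ} (p : Emb H N) : (im H p.1 p.2).card = e H :=
  im_card_aux H _ _ p.1.injective p.2.injective

theorem sum_Y (H : BG) (k : ℕ) :
    ∑ f : Om k, Y H f = W k * ((Fintype.card (Emb H ((k + 1) ^ 2)) : ℝ) /
      ((k + 1 : ℕ) : ℝ) ^ e H) := by
  unfold Y
  rw [Finset.sum_comm]
  have h1 : ∀ p : Emb H ((k + 1) ^ 2),
      (∑ f : Om k, if ∀ x ∈ im H p.1 p.2, f x = 0 then (1 : ℝ) else 0) =
        W k / ((k + 1 : ℕ) : ℝ) ^ e H := by
    intro p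
    have h := sum_ind k (im H p.1 p.2)
    rw [im_card] at h
    unfold W
    exact h
  rw [Finset.sum_congr rfl fun p _ => h1 p, Finset.sum_const, nsmul_eq_mul, Finset.card_univ]
  ring

theorem sum_Y2 (H : BG) (k : ℕ) :
    ∑ f : Om k, Y H f ^ 2 = W k * ∑ p : Emb H ((k + 1) ^ 2), ∑ p' : Emb H ((k + 1) ^ 2),
      (((k + 1 : ℕ) : ℝ) ^ (im H p.1 p.2 ∪ im H p'.1 p'.2).card)⁻¹ := by
  unfold Y
  have h1 : ∀ f : Om k, (∑ p : Emb H ((k + 1) ^ 2),
      if ∀ x ∈ im H p.1 p.2, f x = 0 then (1 : ℝ) else 0) ^ 2 =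
      ∑ p : Emb H ((k + 1) ^ 2), ∑ p' : Emb H ((k + 1) ^ 2),
        if ∀ x ∈ im H p.1 p.2 ∪ im H p'.1 p'.2, f x = 0 then (1 : ℝ) else 0 := by
    intro f
    rw [pow_two, Finset.sum_mul_sum]
    refine Finset.sum_congr rfl fun p _ => Finset.sum_congr rfl fun p' _ => ?_
    by_cases h2 : ∀ x ∈ im H p.1 p.2, f x = 0
    · by_cases h3 : ∀ x ∈ im H p'.1 p'.2, f x = 0
      · rw [if_pos h2, if_pos h3, if_pos, mul_one]
        intro x hx
        rcases Finset.mem_union.mp hx with hx | hx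
        · exact h2 x hx
        · exact h3 x hx
      · have h4 : ¬ ∀ x ∈ im H p.1 p.2 ∪ im H p'.1 p'.2, f x = 0 := fun h =>
          h3 fun x hx => h x (Finset.mem_union_right _ hx)
        rw [if_neg h3, if_neg h4, mul_zero]
    · have h4 : ¬ ∀ x ∈ im H p.1 p.2 ∪ im H p'.1 p'.2, f x = 0 := fun h =>
        h2 fun x hx => h x (Finset.mem_union_left _ hx)
      rw [if_neg h2, if_neg h4, zero_mul]
  rw [Finset.sum_congr rfl fun f _ => h1 f, Finset.sum_comm, Finset.mul_sum]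
  refine Finset.sum_congr rfl fun p _ => ?_
  rw [Finset.sum_comm, Finset.mul_sum]
  refine Finset.sum_congr rfl fun p' _ => ?_
  have h := sum_ind k (im H p.1 p.2 ∪ im H p'.1 p'.2)
  unfold W
  rw [← div_eq_mul_inv]
  exact h

/-- the intersection of two copies of a minimal collapse -/
theorem inter_le {H H' : BG} {φ : H.A → H'.A} {ψ : H.B → H'.B} (hc : IsCollapse H H' φ ψ)
    (hr : r H = e H' + 2 * (v H - v H')) {N : ℕ} (p p' : Emb H' N)
    (hne : (im H' p.1 p.2 ∩ im H' p'.1 p'.2).Nonempty) :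
    (im H' p.1 p.2 ∩ im H' p'.1 p'.2).card + 3 ≤
      2 * ((Finset.univ.image p'.1 ∩ Finset.univ.image p.1).card +
        (Finset.univ.image p'.2 ∩ Finset.univ.image p.2).card) := by
  set J := im H' p.1 p.2 ∩ im H' p'.1 p'.2 with hJ
  set S := (edg H').filter fun x => (p.1 x.1, p.2 x.2) ∈ J with hS
  have h1 : J = S.image (Prod.map p.1 p.2) := by
    ext x
    rw [Finset.mem_image]
    constructor
    · intro hx
      have hx' := hx
      rw [hJ, Finset.mem_inter] at hx'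
      obtain ⟨a, b, hab, rfl⟩ := (mem_im H' _ _ _).mp hx'.1
      exact ⟨(a, b), Finset.mem_filter.mpr ⟨(mem_edg H' _).mpr hab, hx⟩, rfl⟩
    · rintro ⟨y, hy, rfl⟩
      exact (Finset.mem_filter.mp hy).2
  have h2 : J.card = S.card := by
    rw [h1, Finset.card_image_of_injective _ (p.1.injective.prodMap p.2.injective)]
  have hne' : S.Nonempty := by
    rw [← Finset.card_pos, ← h2]
    exact Finset.card_pos.mpr hne
  have h3 := sparse hc hr S (Finset.filter_subset _ _) hne'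
  have h4 : (S.image Prod.fst).card ≤ (Finset.univ.image p'.1 ∩ Finset.univ.image p.1).card := by
    rw [← Finset.card_image_of_injective (S.image Prod.fst) p.1.injective]
    apply Finset.card_le_card
    intro x hx
    obtain ⟨y, hy, rfl⟩ := Finset.mem_image.mp hx
    obtain ⟨z, hz, rfl⟩ := Finset.mem_image.mp hy
    have h5 := (Finset.mem_filter.mp hz).2
    rw [hJ, Finset.mem_inter, mem_im, mem_im] at h5
    obtain ⟨-, a, b, -, hab⟩ := h5
    rw [Prod.mk.injEq] at hab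
    rw [Finset.mem_inter]
    exact ⟨Finset.mem_image.mpr ⟨a, Finset.mem_univ _, hab.1⟩,
      Finset.mem_image.mpr ⟨z.1, Finset.mem_univ _, rfl⟩⟩
  have h4' : (S.image Prod.snd).card ≤
      (Finset.univ.image p'.2 ∩ Finset.univ.image p.2).card := by
    rw [← Finset.card_image_of_injective (S.image Prod.snd) p.2.injective]
    apply Finset.card_le_card
    intro x hx
    obtain ⟨y, hy, rfl⟩ := Finset.mem_image.mp hx
    obtain ⟨z, hz, rfl⟩ := Finset.mem_image.mp hy
    have h5 := (Finset.mem_filter.mp hz).2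
    rw [hJ, Finset.mem_inter, mem_im, mem_im] at h5
    obtain ⟨-, a, b, -, hab⟩ := h5
    rw [Prod.mk.injEq] at hab
    rw [Finset.mem_inter]
    exact ⟨Finset.mem_image.mpr ⟨b, Finset.mem_univ _, hab.2⟩,
      Finset.mem_image.mpr ⟨z.2, Finset.mem_univ _, rfl⟩⟩
  omega

theorem card_hit {ι : Type} [Fintype ι] {N : ℕ} (p : ι ↪ Fin N) :
    (Finset.univ.image p).card ≤ Fintype.card ι := by
  refine Finset.card_image_le.trans ?_
  rw [Finset.card_univ]

theorem sum_emb {ι : Type} [Fintype ι] {N : ℕ} (p : ι ↪ Fin N) :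
    ∑ p' : ι ↪ Fin N, (N : ℝ) ^ (Finset.univ.image p' ∩ Finset.univ.image p).card ≤
      ((Fintype.card ι + 1 : ℝ) * N) ^ Fintype.card ι := by
  refine le_trans ?_ (sum_hit (ι := ι) (Finset.univ.image p) (card_hit p))
  let j : (ι ↪ Fin N) → (ι → Fin N) := fun p => p
  have hj : Function.Injective j := DFunLike.coe_injective
  calc ∑ p' : ι ↪ Fin N, (N : ℝ) ^ (Finset.univ.image p' ∩ Finset.univ.image p).card
      = ∑ p' ∈ Finset.univ.image j,
          (N : ℝ) ^ (Finset.univ.image p' ∩ Finset.univ.image p).card := by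
        rw [Finset.sum_image hj.injOn]
    _ ≤ _ := Finset.sum_le_sum_of_subset_of_nonneg (Finset.subset_univ _)
          fun _ _ _ => by positivity

theorem sum_Y2_le {H H' : BG} {φ : H.A → H'.A} {ψ : H.B → H'.B} (hc : IsCollapse H H' φ ψ)
    (hr : r H = e H' + 2 * (v H - v H')) (k : ℕ) :
    ∑ f : Om k, Y H' f ^ 2 ≤ W k * ((Fintype.card (Emb H' ((k + 1) ^ 2)) : ℝ) ^ 2 /
      ((k + 1 : ℕ) : ℝ) ^ (2 * e H') + (Fintype.card (Emb H' ((k + 1) ^ 2)) : ℝ) *
        (((Fintype.card H'.A + 1 : ℝ) ^ Fintype.card H'.A *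
          (Fintype.card H'.B + 1 : ℝ) ^ Fintype.card H'.B) * ((k + 1 : ℕ) : ℝ) ^ (2 * v H')) /
            ((k + 1 : ℕ) : ℝ) ^ (2 * e H' + 3)) := by
  rw [sum_Y2]
  have hW := W_pos k
  set q : ℝ := ((k + 1 : ℕ) : ℝ) with hq
  have hq1 : (1 : ℝ) ≤ q := by rw [hq]; exact_mod_cast Nat.succ_le_succ (Nat.zero_le k)
  have hq0 : (0 : ℝ) < q := by linarith
  set N := (k + 1) ^ 2 with hNdef
  have hN : (N : ℝ) = q ^ 2 := by rw [hq, hNdef]; push_cast; ring
  refine mul_le_mul_of_nonneg_left ?_ hW.le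
  have h1 : ∀ p p' : Emb H' N, (q ^ (im H' p.1 p.2 ∪ im H' p'.1 p'.2).card)⁻¹ ≤
      (q ^ (2 * e H'))⁻¹ + (q ^ (2 * e H' + 3))⁻¹ *
        ((N : ℝ) ^ (Finset.univ.image p'.1 ∩ Finset.univ.image p.1).card *
          (N : ℝ) ^ (Finset.univ.image p'.2 ∩ Finset.univ.image p.2).card) := by
    intro p p'
    have h2 := Finset.card_union_add_card_inter (im H' p.1 p.2) (im H' p'.1 p'.2)
    rw [im_card, im_card] at h2
    by_cases hne : (im H' p.1 p.2 ∩ im H' p'.1 p'.2).Nonempty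
    · have h3 := inter_le hc hr p p' hne
      have h4 : (q ^ (im H' p.1 p.2 ∪ im H' p'.1 p'.2).card)⁻¹ ≤
        (q ^ (2 * e H' + 3))⁻¹ *
        ((N : ℝ) ^ (Finset.univ.image p'.1 ∩ Finset.univ.image p.1).card *
          (N : ℝ) ^ (Finset.univ.image p'.2 ∩ Finset.univ.image p.2).card) := by
        rw [hN, ← pow_mul, ← pow_mul, ← pow_add, inv_mul_eq_div, inv_eq_one_div,
          div_le_div_iff₀ (by positivity) (by positivity), one_mul, ← pow_add]
        apply pow_le_pow_right₀ hq1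
        omega
      refine h4.trans ?_
      have : 0 ≤ (q ^ (2 * e H'))⁻¹ := by positivity
      linarith
    · rw [Finset.not_nonempty_iff_eq_empty] at hne
      rw [hne, Finset.card_empty, add_zero] at h2
      rw [h2, ← two_mul]
      have : 0 ≤ (q ^ (2 * e H' + 3))⁻¹ *
        ((N : ℝ) ^ (Finset.univ.image p'.1 ∩ Finset.univ.image p.1).card *
          (N : ℝ) ^ (Finset.univ.image p'.2 ∩ Finset.univ.image p.2).card) := by positivity
      linarith
  have h5 : ∀ p : Emb H' N, ∑ p' : Emb H' N,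
      ((N : ℝ) ^ (Finset.univ.image p'.1 ∩ Finset.univ.image p.1).card *
          (N : ℝ) ^ (Finset.univ.image p'.2 ∩ Finset.univ.image p.2).card) ≤
      (((Fintype.card H'.A + 1 : ℝ) ^ Fintype.card H'.A *
          (Fintype.card H'.B + 1 : ℝ) ^ Fintype.card H'.B) * q ^ (2 * v H')) := by
    intro p
    have h6 := sum_emb p.1
    have h7 := sum_emb p.2
    refine le_trans (le_of_eq ?_) ((mul_le_mul h6 h7 (Finset.sum_nonneg fun _ _ => by positivity)
      (by positivity)).trans (le_of_eq ?_))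
    · rw [Finset.sum_mul_sum, Fintype.sum_prod_type]
    · rw [hN, mul_pow, mul_pow, ← pow_mul, ← pow_mul]
      unfold v
      ring
  calc ∑ p : Emb H' N, ∑ p' : Emb H' N, (q ^ (im H' p.1 p.2 ∪ im H' p'.1 p'.2).card)⁻¹
      ≤ ∑ p : Emb H' N, ∑ p' : Emb H' N, ((q ^ (2 * e H'))⁻¹ + (q ^ (2 * e H' + 3))⁻¹ *
        ((N : ℝ) ^ (Finset.univ.image p'.1 ∩ Finset.univ.image p.1).card *
          (N : ℝ) ^ (Finset.univ.image p'.2 ∩ Finset.univ.image p.2).card)) :=
        Finset.sum_le_sum fun p _ => Finset.sum_le_sum fun p' _ => h1 p p'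
    _ ≤ ∑ p : Emb H' N, ((Fintype.card (Emb H' N) : ℝ) * (q ^ (2 * e H'))⁻¹ +
          (q ^ (2 * e H' + 3))⁻¹ * (((Fintype.card H'.A + 1 : ℝ) ^ Fintype.card H'.A *
          (Fintype.card H'.B + 1 : ℝ) ^ Fintype.card H'.B) * q ^ (2 * v H'))) := by
        apply Finset.sum_le_sum
        intro p _
        rw [Finset.sum_add_distrib, ← Finset.mul_sum, Finset.sum_const, nsmul_eq_mul,
          Finset.card_univ]
        have := mul_le_mul_of_nonneg_left (h5 p)
          (by positivity : (0 : ℝ) ≤ (q ^ (2 * e H' + 3))⁻¹)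
        linarith
    _ = _ := by
        rw [Finset.sum_const, nsmul_eq_mul, Finset.card_univ]
        ring

end BG

end Pool.Agent.Q41.QL
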