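import Pool.Agent.Q41.QL.Good
import Pool.Agent.Q41.QL.Blow

/-!
# The quasirandom log-limit is not determined by the spectra
-/

namespace Pool.Agent.Q41.QL

namespace BG

open scoped Classical
open Filter Topology

theorem e_K2 : e K2 = 1 := by
  unfold e K2
  simp

theorem v_K2 : v K2 = 2 := by
  unfold v K2
  simp

theorem r_K2 : r K2 = 1 := by
  apply le_antisymm
  · have h : IsCollapse K2 K2 id id :=
      ⟨Function.surjective_id, Function.surjective_id, fun _ _ h => h, fun a b h => ⟨a, b, rfl, rfl, h⟩⟩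
    have := r_le h
    rw [e_K2] at this
    omega
  · obtain ⟨H', φ, ψ, hc, hr⟩ := r_attained K2
    rw [hr]
    have h1 : 0 < e H' := by
      rw [e_eq, Finset.card_pos]
      exact ⟨(φ (), ψ ()), (mem_edg H' _).mpr (hc.2.2.1 _ _ trivial)⟩
    omega

/-- the path with two edges and both leaves in the first class -/
abbrev Ch : BG := ⟨Fin 2, Unit, inferInstance, inferInstance, fun _ _ => True⟩

theorem two_le_r_Ch : 2 ≤ r Ch := by
  obtain ⟨H', φ, ψ, hc, hr⟩ := r_attained Ch
  rw [hr]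
  by_cases hinj : φ 0 = φ 1
  · have h1 : 0 < e H' := by
      rw [e_eq, Finset.card_pos]
      exact ⟨(φ 0, ψ ()), (mem_edg H' _).mpr (hc.2.2.1 _ _ trivial)⟩
    have h2 : Fintype.card H'.A ≤ 1 := by
      rw [Fintype.card_le_one_iff]
      intro a b
      obtain ⟨x, rfl⟩ := hc.1 a
      obtain ⟨y, rfl⟩ := hc.1 b
      fin_cases x <;> fin_cases y <;> simp [hinj]
    have h3 : Fintype.card H'.B ≤ 1 := by
      rw [Fintype.card_le_one_iff]
      intro a b
      obtain ⟨x, rfl⟩ := hc.2.1 a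
      obtain ⟨y, rfl⟩ := hc.2.1 b
      rfl
    have h4 : v Ch = 3 := by unfold v; simp
    have h5 : v H' ≤ 2 := by unfold v; omega
    omega
  · have h1 : 2 ≤ e H' := by
      rw [e_eq]
      have : ({(φ 0, ψ ()), (φ 1, ψ ())} : Finset (H'.A × H'.B)) ⊆ edg H' := by
        intro x hx
        simp only [Finset.mem_insert, Finset.mem_singleton] at hx
        rcases hx with rfl | rfl
        · exact (mem_edg H' _).mpr (hc.2.2.1 _ _ trivial)
        · exact (mem_edg H' _).mpr (hc.2.2.1 _ _ trivial)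
      refine le_trans ?_ (Finset.card_le_card this)
      rw [Finset.card_pair]
      intro h
      exact hinj (Prod.mk.inj h).1
    omega

theorem hasEdge_of_tB (G : BG) (h : 0 < tB K2 G) : HasEdge G := by
  by_contra hcon
  have h1 : hom K2 G = 0 := by
    unfold hom
    rw [Nat.card_eq_zero]
    left
    constructor
    rintro ⟨f, hf⟩
    exact hcon ⟨f.1 (), f.2 (), hf () () trivial⟩
  unfold tB at h
  rw [h1] at h
  simp at h

/-- There is a sequence of balanced graphs with the quasirandom log-limit. -/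
theorem exists_limit : ∃ G : ℕ → BG, (∀ n, Fintype.card (G n).A = Fintype.card (G n).B) ∧
    (∀ n, 0 < tB K2 (G n)) ∧ (∀ n, tB K2 (G n) < 1) ∧ (∀ H, ∀ᶠ n in atTop, 0 < tB H (G n)) ∧
    LogLimit G := by
  obtain ⟨u, hu⟩ := exists_surjective_nat Code
  have key : ∀ n : ℕ, ∃ k : ℕ, 1 ≤ k ∧ ∃ f : Om k, IsGood K2 k (1 / ((n : ℝ) + 2)) f ∧
      ∀ i < n, IsGood (ofCode (u i)) k (1 / ((n : ℝ) + 2)) f := by
    intro n
    obtain ⟨k, hk, f, hf⟩ := exists_good (ι := Option (Fin n))
      (fun o => match o with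
        | none => K2
        | some i => ofCode (u i)) (1 / ((n : ℝ) + 2)) (by positivity)
    exact ⟨k, hk, f, hf none, fun i hi => hf (some ⟨i, hi⟩)⟩
  choose k hk f hf1 hf2 using key
  have hlog : ∀ n, 0 < Real.log ((k n + 1 : ℕ) : ℝ) := by
    intro n
    apply Real.log_pos
    have := hk n
    exact_mod_cast (by omega : 1 < k n + 1)
  have hlim0 : Tendsto (fun n : ℕ => 1 / ((n : ℝ) + 2)) atTop (𝓝 0) := by
    have h := (tendsto_const_div_atTop_nhds_zero_nat (1 : ℝ)).comp (tendsto_add_atTop_nat 2)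
    refine h.congr fun n => ?_
    simp
  have hlt1 : ∀ n, Real.log (tB K2 (Gf (f n))) < 0 := by
    intro n
    have h1 := (hf1 n).2
    rw [r_K2, abs_le, Nat.cast_one] at h1
    have h2 : 1 / ((n : ℝ) + 2) < 1 := by
      rw [div_lt_one (by positivity)]
      have : (0 : ℝ) ≤ n := Nat.cast_nonneg n
      linarith
    have h3 : 0 < -(Real.log (tB K2 (Gf (f n)))) / Real.log ((k n + 1 : ℕ) : ℝ) := by linarith
    have h4 := (div_pos_iff_of_pos_right (hlog n)).mp h3
    linarith
  -- the normalised logarithms converge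
  have hconv : ∀ H : BG, Tendsto (fun n => -(Real.log (tB H (Gf (f n)))) /
      Real.log ((k n + 1 : ℕ) : ℝ)) atTop (𝓝 (r H : ℝ)) := by
    intro H
    obtain ⟨c, ⟨iso⟩⟩ := exists_code H
    obtain ⟨i, hi⟩ := hu c
    rw [tendsto_iff_dist_tendsto_zero]
    refine squeeze_zero' (Eventually.of_forall fun _ => dist_nonneg) ?_ hlim0
    filter_upwards [eventually_gt_atTop i] with n hn
    have h1 := (hf2 n i hn).2
    rw [hi, ← iso.tB_eq, ← iso.r_eq] at h1
    rw [Real.dist_eq]
    exact h1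
  refine ⟨fun n => Gf (f n), fun n => rfl, fun n => (hf1 n).1, fun n => ?_, ?_, ?_⟩
  · by_contra hcon
    push Not at hcon
    have := Real.log_nonneg hcon
    linarith [hlt1 n]
  · intro H
    obtain ⟨c, ⟨iso⟩⟩ := exists_code H
    obtain ⟨i, hi⟩ := hu c
    filter_upwards [eventually_gt_atTop i] with n hn
    have h1 := (hf2 n i hn).1
    rw [hi, ← iso.tB_eq] at h1
    exact h1
  · intro H _
    have h1 := (hconv H).div (hconv K2) (by rw [r_K2]; norm_num)
    rw [r_K2, Nat.cast_one, div_one] at h1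
    refine h1.congr fun n => ?_
    have h2 := hlt1 n
    have h3 : tB K2 (Gf (f n)) ≠ 1 := by
      intro h
      rw [h, Real.log_one] at h2
      exact lt_irrefl _ h2
    simp only [h, Pi.div_apply]
    rw [if_neg h3]
    have h4 := (hlog n).ne'
    have h5 := h2.ne
    field_simp

/-! ### the densities of the blow-ups -/

theorem tB_blow_one (H G : BG) (s : ℕ) (hs : 0 < s) : tB H (blow G 1 (s ^ 2) 0) = tB H G := by
  unfold tB
  rw [hom_blow H G 1 (s ^ 2) 0 (fun i => i.elim0), card_blow_A, card_blow_B]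
  have hs' : (s : ℝ) ≠ 0 := by exact_mod_cast hs.ne'
  push_cast
  rw [mul_one, add_zero, one_pow, mul_one, mul_pow, ← mul_assoc]
  exact mul_div_mul_right _ _ (pow_ne_zero _ (pow_ne_zero _ hs'))

theorem h_blow_one (H G : BG) (s : ℕ) (hs : 0 < s) : h H (blow G 1 (s ^ 2) 0) = h H G := by
  unfold h
  rw [tB_blow_one K2 G s hs, tB_blow_one H G s hs]

theorem tB_blow_two (H G : BG) (u : ℕ) (hG : Fintype.card G.A = Fintype.card G.B)
    (hH : Fintype.card H.B = 1) (hH' : ∀ b : H.B, ∃ a, H.E a b) :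
    tB H (blow G (u + 1) (u + 1) ((u + 1 - 1) ^ 2 * Fintype.card G.A)) =
      tB H G * ((u + 1 : ℝ) / (u ^ 2 + u + 1)) := by
  unfold tB
  rw [hom_blow H G _ _ _ (fun _ b => hH' b), card_blow_A, card_blow_B, hH, ← hG,
    Nat.add_sub_cancel]
  push_cast
  rw [pow_one, pow_one, pow_one, mul_pow]
  have h1 : (Fintype.card G.A : ℝ) * (u + 1) + u ^ 2 * Fintype.card G.A =
    Fintype.card G.A * (u ^ 2 + u + 1) := by ring
  rw [h1]
  have h2 : ((u : ℝ) + 1) ≠ 0 := by positivity
  rcases eq_or_ne (Fintype.card G.A : ℝ) 0 with h3 | h3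
  · rw [h3]; simp
  · field_simp

theorem spec_eq (G : BG) (u : ℕ) (hG : Fintype.card G.A = Fintype.card G.B) :
    spec (blow G 1 ((u + 1) ^ 2) 0) =
      spec (blow G (u + 1) (u + 1) ((u + 1 - 1) ^ 2 * Fintype.card G.A)) :=
  spec_blow G (u + 1) (by omega) hG

theorem main : ∃ G G' : ℕ → BG, (∀ n, HasEdge (G n)) ∧ (∀ n, HasEdge (G' n)) ∧
    (∀ n, spec (G n) = spec (G' n)) ∧ LogLimit G ∧ ¬ LogLimit G' := by
  obtain ⟨G, hbal, hpos, hlt, hpos', hlim⟩ := exists_limit
  have hu : ∀ n, ∃ u : ℕ, 0 < u ∧ ((u : ℝ) + 1) / (u ^ 2 + u + 1) ≤ tB K2 (G n) := by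
    intro n
    obtain ⟨u, hu⟩ := exists_nat_gt (2 / tB K2 (G n))
    have hpn := hpos n
    rw [div_lt_iff₀ hpn] at hu
    have hu0 : 0 < u := by
      rcases Nat.eq_zero_or_pos u with rfl | h
      · rw [Nat.cast_zero, zero_mul] at hu
        linarith
      · exact h
    refine ⟨u, hu0, ?_⟩
    have h1 : (1 : ℝ) ≤ u := by exact_mod_cast hu0
    rw [div_le_iff₀ (by positivity)]
    nlinarith [mul_pos hpn (by linarith : (0 : ℝ) < u)]
  choose u hu0 hu using hu
  refine ⟨fun n => blow (G n) 1 ((u n + 1) ^ 2) 0, fun n => blow (G n) (u n + 1) (u n + 1)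
    ((u n + 1 - 1) ^ 2 * Fintype.card (G n).A), fun n => ?_, fun n => ?_,
    fun n => spec_eq _ _ (hbal n), ?_, ?_⟩
  · apply hasEdge_of_tB
    rw [tB_blow_one _ _ _ (by omega)]
    exact hpos n
  · apply hasEdge_of_tB
    rw [tB_blow_two _ _ _ (hbal n) (by rfl) (fun _ => ⟨(), trivial⟩)]
    have := hpos n
    positivity
  · intro H hH
    refine (hlim H hH).congr fun n => ?_
    exact (h_blow_one H (G n) _ (by omega)).symm
  · intro hcon
    have h1 := hcon Ch ⟨0, (), trivial⟩
    have h2 := hlim Ch ⟨0, (), trivial⟩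
    have hr : (2 : ℝ) ≤ r Ch := by exact_mod_cast two_le_r_Ch
    have h3 : ∀ᶠ n in atTop, h Ch (blow (G n) (u n + 1) (u n + 1)
        ((u n + 1 - 1) ^ 2 * Fintype.card (G n).A)) ≤ 1 + (h Ch (G n) - 1) / 2 := by
      filter_upwards [hpos' Ch, h2.eventually_const_lt (by linarith : (1 : ℝ) < r Ch)] with n hn hn'
      have e1 := tB_blow_two K2 (G n) (u n) (hbal n) (by rfl) (fun _ => ⟨(), trivial⟩)
      have e2 := tB_blow_two Ch (G n) (u n) (hbal n) (by rfl) (fun _ => ⟨0, trivial⟩)
      have hp := hpos n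
      have hl := hlt n
      have hun := hu n
      set ρ : ℝ := ((u n : ℝ) + 1) / (u n ^ 2 + u n + 1) with hρ
      have hρ0 : 0 < ρ := by positivity
      have l1 : Real.log (tB K2 (G n)) < 0 := Real.log_neg hp hl
      have l2 : Real.log ρ ≤ Real.log (tB K2 (G n)) := Real.log_le_log hρ0 hun
      unfold h at hn' ⊢
      rw [if_neg hl.ne] at hn'
      rw [if_neg hl.ne, e1, e2, Real.log_mul hp.ne' hρ0.ne', Real.log_mul hn.ne' hρ0.ne']
      have hne : tB K2 (G n) * ρ ≠ 1 := by
        have : tB K2 (G n) * ρ < 1 := by nlinarith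
        exact this.ne
      rw [if_neg hne]
      rw [lt_div_iff_of_neg l1, one_mul] at hn'
      set x := Real.log (tB K2 (G n))
      set y := Real.log (tB Ch (G n))
      set l := Real.log ρ
      have h4 : 1 + (y / x - 1) / 2 - (y + l) / (x + l) = (y - x) * (l - x) / (2 * x * (x + l)) := by
        have : x + l ≠ 0 := by linarith
        have h0 := l1.ne
        field_simp
        ring
      have h5 : 0 ≤ (y - x) * (l - x) / (2 * x * (x + l)) := by
        apply div_nonneg
        · nlinarith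
        · nlinarith
      linarith
    have h4 := le_of_tendsto_of_tendsto h1 (((h2.sub_const 1).div_const 2).const_add 1) h3
    linarith

end BG

end Pool.Agent.Q41.QL
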