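import Pool.Agent.Q41.QL.Rand

/-!
# First and second moments
-/

namespace Pool.Agent.Q41.QL

namespace BG

open scoped Classical

/-- colourings of the pairs from a set of size `(k + 1) ^ 2` with `k + 1` colours -/
abbrev Om (k : ℕ) : Type := Fin ((k + 1) ^ 2) × Fin ((k + 1) ^ 2) → Fin (k + 1)

/-- the number of colourings -/
noncomputable def W (k : ℕ) : ℝ :=
  ((k + 1 : ℕ) : ℝ) ^ Fintype.card (Fin ((k + 1) ^ 2) × Fin ((k + 1) ^ 2))

theorem W_pos (k : ℕ) : 0 < W k := by unfold W; positivity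

theorem card_Om (k : ℕ) : ((Finset.univ : Finset (Om k)).card : ℝ) = W k := by
  rw [Finset.card_univ, Fintype.card_fun, Fintype.card_fin]
  unfold W
  push_cast
  rfl

theorem sum_hom (H : BG) (k : ℕ) :
    ∑ f : Om k, (hom H (Gf f) : ℝ) = W k * ∑ p : (H.A → Fin ((k + 1) ^ 2)) × (H.B →
      Fin ((k + 1) ^ 2)), (((k + 1 : ℕ) : ℝ) ^ (im H p.1 p.2).card)⁻¹ := by
  simp only [hom_eq]
  rw [Finset.sum_comm, Finset.mul_sum]
  refine Finset.sum_congr rfl fun p _ => ?_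
  have h := sum_ind k (im H p.1 p.2)
  unfold W
  rw [← div_eq_mul_inv]
  exact h

theorem sum_hom_le (H : BG) (k : ℕ) :
    ∑ f : Om k, (hom H (Gf f) : ℝ) ≤ W k * ((Fintype.card H.A : ℝ) ^ Fintype.card H.A *
      (Fintype.card H.B : ℝ) ^ Fintype.card H.B *
      (((k + 1 : ℕ) : ℝ) ^ (2 * v H) / ((k + 1 : ℕ) : ℝ) ^ r H)) := by
  rw [sum_hom]
  have hW := W_pos k
  set q : ℝ := ((k + 1 : ℕ) : ℝ) with hq
  have hq1 : (1 : ℝ) ≤ q := by rw [hq]; exact_mod_cast Nat.succ_le_succ (Nat.zero_le k)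
  have hq0 : (0 : ℝ) < q := by linarith
  have hN : ((((k + 1) ^ 2 : ℕ)) : ℝ) = q ^ 2 := by rw [hq]; push_cast; ring
  refine mul_le_mul_of_nonneg_left ?_ hW.le
  have h1 : ∀ p : (H.A → Fin ((k + 1) ^ 2)) × (H.B → Fin ((k + 1) ^ 2)),
      (q ^ (im H p.1 p.2).card)⁻¹ ≤ (((((k + 1) ^ 2 : ℕ)) : ℝ) ^ (Finset.univ.image p.1).card)⁻¹ *
        (((((k + 1) ^ 2 : ℕ)) : ℝ) ^ (Finset.univ.image p.2).card)⁻¹ *
        (q ^ (2 * v H) / q ^ r H) := by
    intro p
    have h := r_le_im H p.1 p.2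
    rw [hN, ← pow_mul, ← pow_mul]
    have h2 : q ^ (r H + 2 * ((Finset.univ.image p.1).card + (Finset.univ.image p.2).card)) ≤
        q ^ ((im H p.1 p.2).card + 2 * v H) := by
      exact pow_le_pow_right₀ hq1 h
    rw [← mul_inv, ← pow_add, inv_mul_eq_div, div_div, inv_eq_one_div, div_le_div_iff₀
      (by positivity) (by positivity), one_mul, ← pow_add, ← pow_add]
    refine le_trans (le_of_eq ?_) (h2.trans (le_of_eq ?_))
    · congr 1; ring
    · congr 1; ring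
  refine (Finset.sum_le_sum fun p _ => h1 p).trans ?_
  rw [← Finset.sum_mul]
  refine mul_le_mul_of_nonneg_right ?_ (by positivity)
  have h3 := sum_range (ι := H.A) (N := (k + 1) ^ 2) (by positivity)
  have h4 := sum_range (ι := H.B) (N := (k + 1) ^ 2) (by positivity)
  refine le_trans (le_of_eq ?_) (mul_le_mul h3 h4 (Finset.sum_nonneg fun _ _ => by positivity)
    (by positivity))
  rw [Finset.sum_mul_sum, Fintype.sum_prod_type]

theorem tB_Gf (H : BG) (k : ℕ) (f : Om k) :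
    tB H (Gf f) = (hom H (Gf f) : ℝ) / ((k + 1 : ℕ) : ℝ) ^ (2 * v H) := by
  unfold tB
  change (hom H (Gf f) : ℝ) / ((Fintype.card (Fin ((k + 1) ^ 2)) : ℝ) ^ _ *
    (Fintype.card (Fin ((k + 1) ^ 2)) : ℝ) ^ _) = _
  rw [Fintype.card_fin]
  congr 1
  push_cast
  rw [← pow_mul, ← pow_mul, ← pow_add]
  congr 1
  unfold v
  ring

/-- The density is rarely much larger than `q ^ (- r)`. -/
theorem upper (H : BG) (δ : ℝ) (hδ : 0 < δ) : ∃ K : ℝ, 0 < K ∧ ∀ k : ℕ,
    (((Finset.univ : Finset (Om k)).filter fun f =>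
      K / ((k + 1 : ℕ) : ℝ) ^ r H < tB H (Gf f)).card : ℝ) ≤ δ * W k := by
  set C : ℝ := (Fintype.card H.A : ℝ) ^ Fintype.card H.A *
      (Fintype.card H.B : ℝ) ^ Fintype.card H.B with hC
  have hC0 : 0 ≤ C := by positivity
  refine ⟨(C + 1) / δ, by positivity, fun k => ?_⟩
  have h1 := sum_hom_le H k
  have hW := W_pos k
  set q : ℝ := ((k + 1 : ℕ) : ℝ) with hq
  have hq1 : (1 : ℝ) ≤ q := by rw [hq]; exact_mod_cast Nat.succ_le_succ (Nat.zero_le k)
  have hq0 : (0 : ℝ) < q := by linarith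
  set F := (Finset.univ : Finset (Om k)).filter fun f => (C + 1) / δ / q ^ r H < tB H (Gf f)
    with hF
  have h2 : (F.card : ℝ) * ((C + 1) / δ / q ^ r H * q ^ (2 * v H)) ≤
      ∑ f : Om k, (hom H (Gf f) : ℝ) := by
    rw [← nsmul_eq_mul]
    calc F.card • ((C + 1) / δ / q ^ r H * q ^ (2 * v H)) ≤ ∑ f ∈ F, (hom H (Gf f) : ℝ) := by
          apply Finset.card_nsmul_le_sum
          intro f hf
          rw [hF, Finset.mem_filter, tB_Gf, lt_div_iff₀ (by positivity)] at hf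
          exact hf.2.le
      _ ≤ ∑ f : Om k, (hom H (Gf f) : ℝ) :=
          Finset.sum_le_sum_of_subset_of_nonneg (Finset.subset_univ _)
            fun _ _ _ => Nat.cast_nonneg _
  have h3 := h2.trans h1
  set Q := q ^ (2 * v H) / q ^ r H with hQ
  have hQ0 : 0 < Q := by positivity
  have h4 : (C + 1) / δ / q ^ r H * q ^ (2 * v H) = (C + 1) / δ * Q := by
    rw [hQ]; ring
  rw [h4] at h3
  have h5 : (F.card : ℝ) * (C + 1) * Q ≤ δ * W k * C * Q := by
    have : (F.card : ℝ) * (C + 1) * Q = δ * ((F.card : ℝ) * ((C + 1) / δ * Q)) := by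
      field_simp
    rw [this]
    calc δ * ((F.card : ℝ) * ((C + 1) / δ * Q)) ≤ δ * (W k * (C * Q)) :=
          mul_le_mul_of_nonneg_left h3 hδ.le
      _ = δ * W k * C * Q := by ring
  have h6 := le_of_mul_le_mul_right h5 hQ0
  have h7 : (F.card : ℝ) * (C + 1) ≤ δ * W k * (C + 1) := by
    nlinarith [mul_pos hδ hW]
  exact le_of_mul_le_mul_right h7 (by positivity)

end BG

end Pool.Agent.Q41.QL
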