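import Pool.Agent.Q41.QL.Defs

/-!
# Minimal collapses
-/

namespace Pool.Agent.Q41.QL

namespace BG

open scoped Classical

/-- the set of edges -/
noncomputable def edg (H : BG) : Finset (H.A × H.B) := Finset.univ.filter fun p => H.E p.1 p.2

theorem mem_edg (H : BG) (p : H.A × H.B) : p ∈ edg H ↔ H.E p.1 p.2 := by simp [edg]

theorem e_eq (H : BG) : e H = (edg H).card := by
  unfold e
  rw [Nat.card_eq_fintype_card, Fintype.card_subtype]
  rfl

theorem isCollapse_card {H H' : BG} {φ : H.A → H'.A} {ψ : H.B → H'.B}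
    (hc : IsCollapse H H' φ ψ) : v H' ≤ v H := by
  unfold v
  have h1 := Fintype.card_le_of_surjective φ hc.1
  have h2 := Fintype.card_le_of_surjective ψ hc.2.1
  omega

theorem r_le {H H' : BG} {φ : H.A → H'.A} {ψ : H.B → H'.B} (hc : IsCollapse H H' φ ψ) :
    r H ≤ e H' + 2 * (v H - v H') :=
  Nat.sInf_le ⟨H', φ, ψ, hc, rfl⟩

theorem r_attained (H : BG) : ∃ (H' : BG) (φ : H.A → H'.A) (ψ : H.B → H'.B),
    IsCollapse H H' φ ψ ∧ r H = e H' + 2 * (v H - v H') := by
  have hne : {n : ℕ | ∃ (H' : BG) (φ : H.A → H'.A) (ψ : H.B → H'.B), IsCollapse H H' φ ψ ∧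
      n = e H' + 2 * (v H - v H')}.Nonempty := by
    refine ⟨_, H, id, id, ⟨Function.surjective_id, Function.surjective_id, fun _ _ h => h, ?_⟩, rfl⟩
    intro a b hab
    exact ⟨a, b, rfl, rfl, hab⟩
  exact Nat.sInf_mem hne

/-- the image of the edges under a pair of maps -/
noncomputable def im (H : BG) {X Y : Type} (φ : H.A → X) (ψ : H.B → Y) : Finset (X × Y) :=
  (edg H).image (Prod.map φ ψ)

theorem mem_im (H : BG) {X Y : Type} (φ : H.A → X) (ψ : H.B → Y) (x : X × Y) :
    x ∈ im H φ ψ ↔ ∃ a b, H.E a b ∧ (φ a, ψ b) = x := by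
  unfold im
  rw [Finset.mem_image]
  constructor
  · rintro ⟨⟨a, b⟩, hab, rfl⟩
    exact ⟨a, b, (mem_edg H _).mp hab, rfl⟩
  · rintro ⟨a, b, hab, rfl⟩
    exact ⟨(a, b), (mem_edg H _).mpr hab, rfl⟩

theorem r_le_im (H : BG) {X Y : Type} [DecidableEq X] [DecidableEq Y]
    (φ : H.A → X) (ψ : H.B → Y) :
    r H + 2 * ((Finset.univ.image φ).card + (Finset.univ.image ψ).card) ≤
      (im H φ ψ).card + 2 * v H := by
  let H' : BG := ⟨Set.range φ, Set.range ψ, inferInstance, inferInstance,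
    fun a b => (a.1, b.1) ∈ im H φ ψ⟩
  have hc : IsCollapse H H' (Set.rangeFactorization φ) (Set.rangeFactorization ψ) := by
    refine ⟨Set.rangeFactorization_surjective, Set.rangeFactorization_surjective, ?_, ?_⟩
    · intro a b hab
      exact (mem_im H _ _ _).mpr ⟨a, b, hab, rfl⟩
    · rintro ⟨a', ha'⟩ ⟨b', hb'⟩ h
      obtain ⟨a, b, hab, h2⟩ := (mem_im H _ _ _).mp h
      rw [Prod.mk.injEq] at h2
      exact ⟨a, b, Subtype.ext h2.1, Subtype.ext h2.2, hab⟩
  have h1 := r_le hc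
  have h2 := isCollapse_card hc
  have h3 : v H' = (Finset.univ.image φ).card + (Finset.univ.image ψ).card := by
    change Fintype.card (Set.range φ) + Fintype.card (Set.range ψ) = _
    rw [← Set.toFinset_card, ← Set.toFinset_card, Set.toFinset_range, Set.toFinset_range]
  have h4 : e H' ≤ (im H φ ψ).card := by
    unfold e
    have h5 : Nat.card {x // x ∈ im H φ ψ} = (im H φ ψ).card := by
      rw [Nat.card_eq_fintype_card, Fintype.card_coe]
    rw [← h5]
    refine Nat.card_le_card_of_injective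
      (fun p : {p : H'.A × H'.B // H'.E p.1 p.2} =>
        (⟨(p.1.1.1, p.1.2.1), p.2⟩ : {x // x ∈ im H φ ψ})) ?_
    rintro ⟨⟨⟨a, ha⟩, ⟨b, hb⟩⟩, h⟩ ⟨⟨⟨a', ha'⟩, ⟨b', hb'⟩⟩, h'⟩ heq
    simp only [Subtype.mk.injEq, Prod.mk.injEq] at heq
    obtain ⟨rfl, rfl⟩ := heq
    rfl
  omega

/-- A set of edges of a minimal collapse spans many vertices. -/
theorem sparse {H H' : BG} {φ : H.A → H'.A} {ψ : H.B → H'.B} (hc : IsCollapse H H' φ ψ)
    (hr : r H = e H' + 2 * (v H - v H')) (S : Finset (H'.A × H'.B)) (hS : S ⊆ edg H')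
    (hne : S.Nonempty) :
    S.card + 3 ≤ 2 * ((S.image Prod.fst).card + (S.image Prod.snd).card) := by
  obtain ⟨⟨a0, b0⟩, h0⟩ := hne
  set AJ := S.image Prod.fst with hAJ
  set BJ := S.image Prod.snd with hBJ
  let κA : H'.A → H'.A := fun a => if a ∈ AJ then a0 else a
  let κB : H'.B → H'.B := fun b => if b ∈ BJ then b0 else b
  have ha0 : a0 ∈ AJ := Finset.mem_image.mpr ⟨_, h0, rfl⟩
  have hb0 : b0 ∈ BJ := Finset.mem_image.mpr ⟨_, h0, rfl⟩
  have h1 := r_le_im H (κA ∘ φ) (κB ∘ ψ)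
  have hA : Fintype.card H'.A + 1 ≤ (Finset.univ.image (κA ∘ φ)).card + AJ.card := by
    have : insert a0 (Finset.univ \ AJ) ⊆ Finset.univ.image (κA ∘ φ) := by
      intro a ha
      rw [Finset.mem_insert, Finset.mem_sdiff] at ha
      rcases ha with rfl | ⟨-, ha⟩
      · obtain ⟨x, hx⟩ := hc.1 a
        refine Finset.mem_image.mpr ⟨x, Finset.mem_univ _, ?_⟩
        simp [κA, hx, ha0]
      · obtain ⟨x, hx⟩ := hc.1 a
        refine Finset.mem_image.mpr ⟨x, Finset.mem_univ _, ?_⟩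
        simp [κA, hx, ha]
    have h2 := Finset.card_le_card this
    rw [Finset.card_insert_of_notMem (by simp [ha0]), Finset.card_univ_sdiff] at h2
    have h3 : AJ.card ≤ Fintype.card H'.A := Finset.card_le_univ _
    omega
  have hB : Fintype.card H'.B + 1 ≤ (Finset.univ.image (κB ∘ ψ)).card + BJ.card := by
    have : insert b0 (Finset.univ \ BJ) ⊆ Finset.univ.image (κB ∘ ψ) := by
      intro a ha
      rw [Finset.mem_insert, Finset.mem_sdiff] at ha
      rcases ha with rfl | ⟨-, ha⟩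
      · obtain ⟨x, hx⟩ := hc.2.1 a
        refine Finset.mem_image.mpr ⟨x, Finset.mem_univ _, ?_⟩
        simp [κB, hx, hb0]
      · obtain ⟨x, hx⟩ := hc.2.1 a
        refine Finset.mem_image.mpr ⟨x, Finset.mem_univ _, ?_⟩
        simp [κB, hx, ha]
    have h2 := Finset.card_le_card this
    rw [Finset.card_insert_of_notMem (by simp [hb0]), Finset.card_univ_sdiff] at h2
    have h3 : BJ.card ≤ Fintype.card H'.B := Finset.card_le_univ _
    omega
  have hI : (im H (κA ∘ φ) (κB ∘ ψ)).card + S.card ≤ e H' + 1 := by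
    have : im H (κA ∘ φ) (κB ∘ ψ) ⊆ insert (a0, b0) ((edg H' \ S).image (Prod.map κA κB)) := by
      intro p hp
      obtain ⟨⟨a, b⟩, hab, rfl⟩ := Finset.mem_image.mp hp
      rw [mem_edg] at hab
      have h2 := hc.2.2.1 a b hab
      by_cases hm : (φ a, ψ b) ∈ S
      · rw [Finset.mem_insert]
        left
        have h3 : φ a ∈ AJ := Finset.mem_image.mpr ⟨_, hm, rfl⟩
        have h4 : ψ b ∈ BJ := Finset.mem_image.mpr ⟨_, hm, rfl⟩
        simp [κA, κB, h3, h4]
      · rw [Finset.mem_insert]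
        right
        exact Finset.mem_image.mpr ⟨(φ a, ψ b), Finset.mem_sdiff.mpr
          ⟨(mem_edg H' _).mpr h2, hm⟩, rfl⟩
    have h2 := Finset.card_le_card this
    have h3 := Finset.card_insert_le (a0, b0) ((edg H' \ S).image (Prod.map κA κB))
    have h4 := Finset.card_image_le (s := edg H' \ S) (f := Prod.map κA κB)
    have h5 := Finset.card_sdiff_add_card_eq_card hS
    rw [e_eq]
    omega
  have hv := isCollapse_card hc
  have hv' : v H' = Fintype.card H'.A + Fintype.card H'.B := rfl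
  omega

end BG

end Pool.Agent.Q41.QL
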