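import Pool.Agent.Q41.QL.RMin

/-!
# The uniformly random colouring: moments of homomorphism numbers
-/

namespace Pool.Agent.Q41.QL

namespace BG

open scoped Classical

/-- the graph of the colour `0` -/
abbrev Gf {N k : ℕ} (f : Fin N × Fin N → Fin (k + 1)) : BG :=
  ⟨Fin N, Fin N, inferInstance, inferInstance, fun a b => f (a, b) = 0⟩

/-- counting functions with zeros on a given set -/
theorem sum_ind {T : Type} [Fintype T] (k : ℕ) (S : Finset T) [Fintype (T → Fin (k + 1))]
    [∀ f : T → Fin (k + 1), Decidable (∀ x ∈ S, f x = 0)] :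
    ∑ f : T → Fin (k + 1), (if ∀ x ∈ S, f x = 0 then (1 : ℝ) else 0) =
      ((k + 1 : ℕ) : ℝ) ^ Fintype.card T / ((k + 1 : ℕ) : ℝ) ^ S.card := by
  have h0 : ((k + 1 : ℕ) : ℝ) ≠ 0 := by positivity
  rw [eq_div_iff (pow_ne_zero _ h0)]
  have h1 : ∑ f : T → Fin (k + 1), (if ∀ x ∈ S, f x = 0 then (1 : ℝ) else 0) =
      ((Fintype.piFinset (fun x : T => if x ∈ S then ({0} : Finset (Fin (k + 1)))
        else Finset.univ)).card : ℝ) := by
    rw [← Finset.sum_filter, Finset.sum_const, nsmul_eq_mul, mul_one]
    congr 2
    ext f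
    rw [Finset.mem_filter, Fintype.mem_piFinset]
    constructor
    · rintro ⟨-, h⟩ x
      by_cases hx : x ∈ S
      · simp [hx, h x hx]
      · simp [hx]
    · intro h
      refine ⟨Finset.mem_univ _, fun x hx => ?_⟩
      have := h x
      simpa [hx] using this
  rw [h1, Fintype.card_piFinset]
  have h2 : ∀ x : T, (if x ∈ S then ({0} : Finset (Fin (k + 1))) else Finset.univ).card =
      if x ∈ S then 1 else (k + 1) := by
    intro x
    split_ifs <;> simp
  simp only [h2]
  rw [Finset.prod_ite]
  simp only [Finset.prod_const_one, Finset.prod_const, one_mul]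
  push_cast
  rw [← pow_add]
  congr 1
  have h3 : (Finset.univ.filter fun x => x ∉ S) = Finset.univ \ S := by
    ext x; simp
  rw [h3, Finset.card_univ_sdiff]
  have := Finset.card_le_univ S
  omega

/-- the number of homomorphisms as a sum of indicators -/
theorem hom_eq (H : BG) {N k : ℕ} (f : Fin N × Fin N → Fin (k + 1)) :
    (hom H (Gf f) : ℝ) = ∑ p : (H.A → Fin N) × (H.B → Fin N),
      if ∀ x ∈ im H p.1 p.2, f x = 0 then (1 : ℝ) else 0 := by
  rw [← Finset.sum_filter, Finset.sum_const, nsmul_eq_mul, mul_one]
  unfold hom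
  rw [Nat.card_eq_fintype_card, Fintype.card_subtype]
  congr 2
  ext p
  simp only [Finset.mem_filter, Finset.mem_univ, true_and]
  constructor
  · intro h x hx
    obtain ⟨a, b, hab, rfl⟩ := (mem_im H _ _ _).mp hx
    exact h a b hab
  · intro h a b hab
    exact h (p.1 a, p.2 b) ((mem_im H _ _ _).mpr ⟨a, b, hab, rfl⟩)

section range

variable {ι : Type} [Fintype ι] {N : ℕ}

/-- canonical representatives of the fibres -/
noncomputable def repr (φ : ι → Fin N) (i : ι) : ι :=
  Classical.choose (⟨i, rfl⟩ : ∃ j, φ j = φ i)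

omit [Fintype ι] in
theorem repr_spec (φ : ι → Fin N) (i : ι) : φ (repr φ i) = φ i :=
  Classical.choose_spec (⟨i, rfl⟩ : ∃ j, φ j = φ i)

omit [Fintype ι] in
theorem repr_congr (φ : ι → Fin N) (i j : ι) (h : φ i = φ j) : repr φ i = repr φ j := by
  unfold repr
  congr 1
  funext l
  rw [h]

theorem card_repr (φ : ι → Fin N) :
    (Finset.univ.image (repr φ)).card ≤ (Finset.univ.image φ).card := by
  rw [← Finset.card_image_of_injOn (s := Finset.univ.image (repr φ)) (f := φ)]
  · apply Finset.card_le_card
    intro x hx
    obtain ⟨y, -, rfl⟩ := Finset.mem_image.mp hx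
    exact Finset.mem_image.mpr ⟨y, Finset.mem_univ _, rfl⟩
  · intro x hx y hy hxy
    simp only [Finset.coe_image, Finset.coe_univ, Set.image_univ, Set.mem_range] at hx hy
    obtain ⟨i, rfl⟩ := hx
    obtain ⟨j, rfl⟩ := hy
    simp only [repr_spec] at hxy
    exact repr_congr φ i j hxy

theorem sum_range (hN : 0 < N) :
    ∑ φ : ι → Fin N, ((N : ℝ) ^ (Finset.univ.image φ).card)⁻¹ ≤
      (Fintype.card ι : ℝ) ^ Fintype.card ι := by
  have hN' : (0 : ℝ) < N := by exact_mod_cast hN
  have hN1 : (1 : ℝ) ≤ N := by exact_mod_cast hN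
  rw [← Finset.sum_fiberwise (s := Finset.univ) (g := fun φ : ι → Fin N => repr φ)]
  calc ∑ σ : ι → ι, ∑ φ ∈ Finset.univ.filter (fun φ : ι → Fin N => repr φ = σ),
        ((N : ℝ) ^ (Finset.univ.image φ).card)⁻¹
      ≤ ∑ σ : ι → ι, (1 : ℝ) := by
        apply Finset.sum_le_sum
        intro σ _
        have h1 : ∀ φ ∈ Finset.univ.filter (fun φ : ι → Fin N => repr φ = σ),
            ((N : ℝ) ^ (Finset.univ.image φ).card)⁻¹ ≤
              ((N : ℝ) ^ (Finset.univ.image σ).card)⁻¹ := by
          intro φ hφ
          rw [Finset.mem_filter] at hφ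
          have := card_repr φ
          rw [hφ.2] at this
          gcongr
        refine (Finset.sum_le_sum h1).trans ?_
        rw [Finset.sum_const, nsmul_eq_mul]
        have h2 : (Finset.univ.filter (fun φ : ι → Fin N => repr φ = σ)).card ≤
            N ^ (Finset.univ.image σ).card := by
          have h3 : (Finset.univ.filter (fun φ : ι → Fin N => repr φ = σ)).card ≤
              (Finset.univ : Finset ({x // x ∈ Finset.univ.image σ} → Fin N)).card := by
            refine Finset.card_le_card_of_injOn (fun φ x => φ x.1)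
              (fun _ _ => Finset.mem_coe.mpr (Finset.mem_univ _)) ?_
            intro φ hφ φ' hφ' h
            funext i
            rw [Finset.mem_coe, Finset.mem_filter] at hφ hφ'
            have h4 := congrFun h ⟨σ i, Finset.mem_image.mpr ⟨i, Finset.mem_univ _, rfl⟩⟩
            simp only at h4
            have h5 := repr_spec φ i
            have h6 := repr_spec φ' i
            rw [hφ.2] at h5
            rw [hφ'.2] at h6
            rw [← h5, ← h6, h4]
          rw [Finset.card_univ, Fintype.card_fun, Fintype.card_fin] at h3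
          have h7 : Nat.card {x // x ∈ Finset.univ.image σ} = (Finset.univ.image σ).card := by
            rw [Nat.card_eq_fintype_card, Fintype.card_coe]
          rw [← Nat.card_eq_fintype_card, h7] at h3
          exact h3
        rw [mul_inv_le_iff₀ (by positivity), one_mul]
        exact_mod_cast h2
    _ = (Fintype.card ι : ℝ) ^ Fintype.card ι := by
        rw [Finset.sum_const, nsmul_eq_mul, mul_one, Finset.card_univ, Fintype.card_fun]
        push_cast
        rfl

/-- sum over maps weighted by the number of points which hit a given small set -/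
theorem sum_hit (R : Finset (Fin N)) (hR : R.card ≤ Fintype.card ι) :
    ∑ φ : ι → Fin N, (N : ℝ) ^ ((Finset.univ.image φ) ∩ R).card ≤
      ((Fintype.card ι + 1 : ℝ) * N) ^ Fintype.card ι := by
  rcases Nat.eq_zero_or_pos N with rfl | hN
  · by_cases hι : IsEmpty ι
    · simp
    · rw [not_isEmpty_iff] at hι
      have : IsEmpty (ι → Fin 0) := by
        rw [isEmpty_fun]
        exact ⟨hι, inferInstance⟩
      rw [Finset.univ_eq_empty, Finset.sum_empty]
      positivity
  have hN' : (0 : ℝ) < N := by exact_mod_cast hN
  have hN1 : (1 : ℝ) ≤ N := by exact_mod_cast hN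
  calc ∑ φ : ι → Fin N, (N : ℝ) ^ ((Finset.univ.image φ) ∩ R).card
      ≤ ∑ φ : ι → Fin N, ∏ i, (if φ i ∈ R then (N : ℝ) else 1) := by
        apply Finset.sum_le_sum
        intro φ _
        rw [Finset.prod_ite, Finset.prod_const, Finset.prod_const_one, mul_one]
        apply pow_le_pow_right₀ hN1
        have : (Finset.univ.image φ) ∩ R ⊆ (Finset.univ.filter fun i => φ i ∈ R).image φ := by
          intro x hx
          rw [Finset.mem_inter, Finset.mem_image] at hx
          obtain ⟨⟨i, -, rfl⟩, hx⟩ := hx
          exact Finset.mem_image.mpr ⟨i, Finset.mem_filter.mpr ⟨Finset.mem_univ _, hx⟩, rfl⟩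
        exact (Finset.card_le_card this).trans Finset.card_image_le
    _ = ∏ i : ι, ∑ c : Fin N, (if c ∈ R then (N : ℝ) else 1) := by
        rw [Finset.prod_univ_sum, Fintype.piFinset_univ]
    _ ≤ ∏ i : ι, ((Fintype.card ι + 1 : ℝ) * N) := by
        apply Finset.prod_le_prod
        · intro i _
          exact Finset.sum_nonneg fun c _ => by split_ifs <;> positivity
        · intro i _
          rw [Finset.sum_ite, Finset.sum_const, Finset.sum_const, nsmul_eq_mul, nsmul_eq_mul,
            mul_one]
          have h1 : (Finset.univ.filter fun c : Fin N => c ∈ R).card = R.card := by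
            congr 1; ext; simp
          have h2 : (Finset.univ.filter fun c : Fin N => c ∉ R).card ≤ N := by
            refine (Finset.card_le_univ _).trans ?_
            simp
          rw [h1]
          have h3 : (R.card : ℝ) ≤ Fintype.card ι := by exact_mod_cast hR
          have h4 : ((Finset.univ.filter fun c : Fin N => c ∉ R).card : ℝ) ≤ N := by
            exact_mod_cast h2
          nlinarith
    _ = ((Fintype.card ι + 1 : ℝ) * N) ^ Fintype.card ι := by
        rw [Finset.prod_const, Finset.card_univ]

end range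

end BG

end Pool.Agent.Q41.QL
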